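import Pool.Agent.H65.CRG.TD
import Pool.Agent.H23.CRZ.BM

/-!
Board crg_modules, row BM: the main term (general degree).
-/

set_option autoImplicit false

open NumberField NumberField.InfinitePlace Complex Filter Topology MeasureTheory

namespace Pool.Agent.H39.CRG

open Pool.Agent.H28.RC Pool.Agent.H25.HK Pool.Agent.H37.CV
open Pool.Agent.H65.CRZ Pool.Agent.H65.CRG Pool.Agent.H23.CRZ

/-- the parameters `log q`, `L` -/
theorem Lg_bds (K : Type) [Field K] [NumberField K] (c : ℝ) (hc : 0 < c)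
    (hn : 1 ≤ nrComplexPlaces K)
    (hcA : ∀ q : ℕ, q.Prime → cB K (qi K q) = c * (q : ℝ) ^ nrComplexPlaces K ∧
      nm (qi K q) = (q : ℝ) ^ Module.finrank ℚ K) :
    ∃ q₁ : ℕ, ∀ q : ℕ, q.Prime → q₁ ≤ q → 1 ≤ Real.log q ∧ Real.log q ≤ Lg K q ∧
      Lg K q ≤ 4 * nrComplexPlaces K * Real.log q ∧
      Lg K q = 2 * Real.log c + 2 * nrComplexPlaces K * Real.log q ∧
      2 * |Real.log c| ≤ Real.log q := by
  obtain ⟨q₁, h1⟩ := log_large (1 + 2 * |Real.log c|)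
  refine ⟨q₁, fun q hq hqq => ?_⟩
  have h2 := h1 q hqq
  have h3 := abs_nonneg (Real.log c)
  have h4 := le_abs_self (Real.log c)
  have h5 := neg_abs_le (Real.log c)
  have hq0 : (0 : ℝ) < q := by exact_mod_cast hq.pos
  have hn' : (1 : ℝ) ≤ nrComplexPlaces K := by exact_mod_cast hn
  have h6 : Lg K q = 2 * Real.log c + 2 * nrComplexPlaces K * Real.log q := by
    unfold Lg
    rw [(hcA q hq).1, Real.log_mul hc.ne' (pow_pos hq0 _).ne', Real.log_pow]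
    ring
  have h7 : Real.log q ≤ nrComplexPlaces K * Real.log q := by nlinarith
  refine ⟨by linarith, ?_, ?_, h6, by linarith⟩
  · rw [h6]
    have h8 : 2 * (nrComplexPlaces K : ℝ) * Real.log q =
        2 * (nrComplexPlaces K * Real.log q) := by ring
    rw [h8]
    linarith
  · rw [h6]
    have h8 : 2 * (nrComplexPlaces K : ℝ) * Real.log q =
        2 * (nrComplexPlaces K * Real.log q) := by ring
    have h9 : 4 * (nrComplexPlaces K : ℝ) * Real.log q =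
        4 * (nrComplexPlaces K * Real.log q) := by ring
    rw [h8, h9]
    linarith

theorem pf_BM (h1 : Pool.Agent.H65.CRZ.T_SD) (h2 : Pool.Agent.H65.CRG.T_G3)
    (h3 : Pool.Agent.H65.CRG.T_CQ) : Pool.Agent.H65.CRG.T_BM := by
  intro K _ _ _ E ε₁ c C₀ hE hε hε' hc hC₀
  obtain ⟨hn, -, c₀, hc₀, hcA⟩ := h3 K
  obtain ⟨C₃, B, hC₃, hB, hG3⟩ := h2 (nrComplexPlaces K)
  obtain ⟨q₁, hq₁⟩ := Lg_bds K c₀ hc₀ hn hcA
  refine ⟨B, hB, fun η hη => ?_⟩
  have hn' : (1 : ℝ) ≤ nrComplexPlaces K := by exact_mod_cast hn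
  have hrho : 0 < rho K := dedekindZeta_residue_pos K
  -- constants
  have hε2 : 0 < 1 - 2 * ε₁ := by linarith
  set κ : ℝ := c * (1 - 2 * ε₁) with hκ
  have hκ0 : 0 < κ := mul_pos hc hε2
  set C₁ : ℝ := 1 + C₀ + C₀ ^ 2 with hC₁
  have hC₁0 : 0 < C₁ := by positivity
  set X₀ : ℝ := Real.exp (8 * nrComplexPlaces K * C₀) with hX₀
  have hX₀0 : 0 < X₀ := Real.exp_pos _
  set D : ℝ := 1 + X₀ * (2 + C₁ / κ) with hD
  have hD0 : 0 < D := by positivity
  set t : ℝ := min 1 (η / D) with ht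
  have ht0 : 0 < t := lt_min one_pos (div_pos hη hD0)
  have ht1 : t ≤ 1 := min_le_left _ _
  have htD : t * D ≤ η := by
    have := mul_le_mul_of_nonneg_right (min_le_right 1 (η / D)) hD0.le
    rwa [div_mul_cancel₀ _ hD0.ne'] at this
  -- the function `E` near `1`
  have hder : HasDerivAt E (deriv E 1) 1 := (hE.1 1).hasDerivAt
  obtain ⟨C₂, hC₂, hO⟩ := hder.isBigO_sub.exists_pos
  rw [Asymptotics.isBigOWith_iff] at hO
  obtain ⟨r₀, hr₀, hr⟩ := Metric.eventually_nhds_iff.1 hO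
  have hEb : ∀ z : ℂ, ‖z‖ < r₀ → ‖E (1 + z) - rho K‖ ≤ C₂ * ‖z‖ := by
    intro z hz
    have h4 := @hr (1 + z) (by rw [dist_eq_norm]; simpa using hz)
    rw [hE.2.2.1] at h4
    simpa using h4
  -- the error of the quadratic form
  set η' : ℝ := min 1 (κ * t / 2) with hη'
  have hη'0 : 0 < η' := lt_min one_pos (by positivity)
  have hη'1 : η' ≤ 1 := min_le_left _ _
  have hη'2 : η' ≤ κ * t / 2 := min_le_right _ _
  obtain ⟨M₀, hM₀, hSD⟩ := h1 K C₀ η' hC₀ hη'0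
  obtain ⟨q₂, hq₂⟩ := log_large (1 + 16 * C₀ + 4 * C₀ / r₀ + 2 * C₀ * C₃ / t +
    Real.log M₀ / (1 - 2 * ε₁) + 2 * C₂ * (C₁ + 1) / (rho K * t * (1 - 2 * ε₁)))
  refine ⟨max q₁ q₂, fun q hq hqq α β u hα hβ hω => ?_⟩
  obtain ⟨l1, l2, l3, l4, l5⟩ := hq₁ q hq ((le_max_left _ _).trans hqq)
  have hlog := hq₂ q ((le_max_right _ _).trans hqq)
  have hq0 : (0 : ℝ) < q := by exact_mod_cast hq.pos
  set Λ : ℝ := Real.log q with hΛ
  have hΛ0 : 0 < Λ := by linarith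
  have hM₀log : 0 ≤ Real.log M₀ := Real.log_nonneg (by linarith)
  have p1 : 0 ≤ 4 * C₀ / r₀ := by positivity
  have p2 : 0 ≤ 2 * C₀ * C₃ / t := by positivity
  have p3 : 0 ≤ Real.log M₀ / (1 - 2 * ε₁) := by positivity
  have p4 : 0 ≤ 2 * C₂ * (C₁ + 1) / (rho K * t * (1 - 2 * ε₁)) := by positivity
  have a1 : 16 * C₀ ≤ Λ := by linarith
  have a2 : 4 * C₀ / r₀ ≤ Λ := by linarith
  have a3 : 2 * C₀ * C₃ / t ≤ Λ := by linarith
  have a4 : Real.log M₀ / (1 - 2 * ε₁) ≤ Λ := by linarith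
  have a5 : 2 * C₂ * (C₁ + 1) / (rho K * t * (1 - 2 * ε₁)) ≤ Λ := by linarith
  -- the parameters
  have hl : Real.log (Mq ε₁ q) = (1 - 2 * ε₁) * Λ := by
    unfold Mq
    rw [Real.log_rpow hq0]
  have hMpos : 0 < Mq ε₁ q := by
    unfold Mq
    positivity
  set l : ℝ := Real.log (Mq ε₁ q) with hldef
  have hl0 : 0 < l := by
    rw [hl]
    positivity
  have hlΛ : l ≤ Λ := by
    have h4 : (1 - 2 * ε₁) * Λ = Λ - 2 * (ε₁ * Λ) := by ring
    have h5 : 0 < ε₁ * Λ := mul_pos hε hΛ0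
    rw [hl, h4]
    linarith
  have hM : M₀ ≤ Mq ε₁ q := by
    have h4 : Real.log M₀ ≤ l := by
      rw [hl, mul_comm]
      exact (div_le_iff₀ hε2).1 a4
    exact (Real.log_le_log_iff (by linarith) hMpos).1 h4
  have hdl : C₀ / Λ ≤ C₀ / l := div_le_div_of_nonneg_left hC₀.le hl0 hlΛ
  have hαl : ‖α‖ ≤ C₀ / l := hα.trans hdl
  have hβl : ‖β‖ ≤ C₀ / l := hβ.trans hdl
  have hα' : ‖-α‖ ≤ C₀ / l := by rwa [norm_neg]
  have hβ' : ‖-β‖ ≤ C₀ / l := by rwa [norm_neg]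
  have hω0 : 0 < ‖α + β‖ := lt_of_lt_of_le (by positivity) hω
  have hωne : α + β ≠ 0 := norm_pos_iff.1 hω0
  have hωl : κ ≤ ‖α + β‖ * l := by
    have h4 := mul_le_mul_of_nonneg_right hω hl0.le
    refine le_trans (le_of_eq ?_) h4
    rw [hκ, hl]
    field_simp
  have hωup : ‖α + β‖ ≤ 2 * C₀ / Λ := by
    refine (norm_add_le _ _).trans ?_
    have h4 := add_le_add hα hβ
    refine h4.trans (le_of_eq ?_)
    ring
  have hωr : ‖α + β‖ < r₀ := by
    refine lt_of_le_of_lt hωup ?_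
    rw [div_lt_iff₀ hΛ0]
    rw [div_le_iff₀ hr₀] at a2
    have h4 : Λ * r₀ = r₀ * Λ := mul_comm _ _
    linarith
  -- the two terms
  have hF₁ := norm_FF_le α β l C₀ hl0 hαl hβl
  have hF₂ := norm_FF_le (-α) (-β) l C₀ hl0 hα' hβ'
  have hsym : Pool.Agent.H65.CRZ.FF (-β) (-α) l = Pool.Agent.H65.CRZ.FF (-α) (-β) l := by
    unfold Pool.Agent.H65.CRZ.FF
    ring
  have hS₁ := hSD (Mq ε₁ q) α β hM hαl hβl
  have hS₂ := hSD (Mq ε₁ q) (-β) (-α) hM hβ' hα'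
  rw [← hldef] at hS₁ hS₂
  rw [hsym] at hS₂
  have he₁ := hEb (α + β) hωr
  have he₂ : ‖E (1 - (α + β)) - rho K‖ ≤ C₂ * ‖α + β‖ := by
    have h4 := hEb (-(α + β)) (by rwa [norm_neg])
    rwa [norm_neg, ← sub_eq_add_neg] at h4
  have t₁ := one_term (rho K) l C₁ C₂ η' (α + β) (E (1 + (α + β))) (Sd K (Mq ε₁ q) α β)
    (Pool.Agent.H65.CRZ.FF α β l) hrho hl0 hωne hC₂.le hF₁ hS₁ he₁
  have t₂ := one_term (rho K) l C₁ C₂ η' (α + β) (E (1 - (α + β))) (Sd K (Mq ε₁ q) (-β) (-α))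
    (Pool.Agent.H65.CRZ.FF (-α) (-β) l) hrho hl0 hωne hC₂.le hF₂ hS₂ he₂
  have hδ : C₂ * (C₁ + η') / (rho K * l) + η' / (‖α + β‖ * l) ≤ t := by
    have h4 : C₂ * (C₁ + η') / (rho K * l) ≤ t / 2 := by
      rw [div_le_iff₀ (by positivity)]
      rw [div_le_iff₀ (by positivity)] at a5
      have h5 : C₂ * (C₁ + η') ≤ C₂ * (C₁ + 1) :=
        mul_le_mul_of_nonneg_left (by linarith) hC₂.le
      have h6 : t / 2 * (rho K * l) = Λ * (rho K * t * (1 - 2 * ε₁)) / 2 := by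
        rw [hl]
        ring
      rw [h6]
      linarith
    have h7 : η' / (‖α + β‖ * l) ≤ t / 2 := by
      have h8 : η' / (‖α + β‖ * l) ≤ η' / κ := div_le_div_of_nonneg_left hη'0.le hκ0 hωl
      have h9 : η' / κ ≤ (κ * t / 2) / κ := div_le_div_of_nonneg_right hη'2 hκ0.le
      have h10 : (κ * t / 2) / κ = t / 2 := by field_simp
      linarith
    linarith
  -- the Gamma factors
  have hg := hG3 α β u (hα.trans (by rw [div_le_iff₀ hΛ0]; linarith))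
    (hβ.trans (by rw [div_le_iff₀ hΛ0]; linarith))
  set g : ℂ := (Gamma (1 - (1 / 2 + α + u * I)) * Gamma (1 - (1 / 2 + β - u * I)) /
      (Gamma (1 / 2 + α + u * I) * Gamma (1 / 2 + β - u * I))) ^ nrComplexPlaces K with hgdef
  have hU : (1 : ℝ) ≤ (1 + |u|) ^ B := Real.one_le_rpow (by linarith [abs_nonneg u]) hB
  have hg' : ‖g - 1‖ ≤ t * (1 + |u|) ^ B := by
    refine hg.trans (mul_le_mul_of_nonneg_right ?_ (by linarith))
    have h4 : ‖α‖ + ‖β‖ ≤ 2 * C₀ / Λ := by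
      have := add_le_add hα hβ
      refine this.trans (le_of_eq ?_)
      ring
    have h5 := mul_le_mul_of_nonneg_left h4 hC₃.le
    refine h5.trans ?_
    rw [← mul_div_assoc, div_le_iff₀ hΛ0]
    rw [div_le_iff₀ ht0] at a3
    linarith
  -- the exponential factor
  have hA0 : 0 < cB K (qi K q) := by
    rw [(hcA q hq).1]
    positivity
  have hAC : ((cB K (qi K q) : ℝ) : ℂ) ≠ 0 := by exact_mod_cast hA0.ne'
  have hXf : Xn (nrComplexPlaces K) (cB K (qi K q)) (1 / 2 + α + u * I) (1 / 2 + β - u * I) =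
      cexp (-(α + β) * (Lg K q : ℝ)) * g := by
    unfold Xn
    rw [← hgdef]
    congr 1
    rw [Complex.cpow_def_of_ne_zero hAC, ← Complex.ofReal_log hA0.le]
    congr 1
    unfold Lg
    push_cast
    ring
  have hxn : ‖cexp (-(α + β) * (Lg K q : ℝ))‖ ≤ X₀ := by
    rw [Complex.norm_exp, hX₀]
    refine Real.exp_le_exp.2 ((Complex.re_le_norm _).trans ?_)
    rw [norm_mul, norm_neg, Complex.norm_real, Real.norm_eq_abs, abs_of_nonneg (by linarith)]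
    have h4 := mul_le_mul hωup l3 (by linarith) (by positivity)
    refine h4.trans (le_of_eq ?_)
    field_simp
    ring
  have hfin := combine (α + β) (Pool.Agent.H65.CRZ.FF α β l) (Pool.Agent.H65.CRZ.FF (-α) (-β) l)
    _ _ g (cexp (-(α + β) * (Lg K q : ℝ))) l t ((1 + |u|) ^ B) X₀ C₁ κ η hl0 ht0.le ht1 hU hxn
    hκ0 hωl hF₂ (t₁.trans hδ) (t₂.trans hδ) hg' hC₁0.le htD
  rw [hXf]
  unfold Bm
  exact hfin

end Pool.Agent.H39.CRG
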